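import Pool.Agent.Run7.h386.GL.Core

/-!
The isoperimetric inequality for all finite sets closed under gcd and lcm: exposing the
coordinates one by one. A coordinate with a spread distribution is exposed (which costs a constant
factor, compensated by the number of the values); otherwise the set is restricted to boundedly many
values of the coordinate.
-/

set_option autoImplicit false

namespace Pool.Agent.Run7.h386.GL

open Finset Pool.Agent.TH83.SQ Pool.Agent.N811.IS
open scoped Pointwise Classical

/-- exposing a coordinate -/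
theorem rho_chain {θ : ℝ} (hθ : 1 / 2 ≤ θ) (hθ1 : θ < 1) (g : ℕ → ℕ) :
    ∀ (n : ℕ) (A : Finset ℕ), (A.image g).card = n →
      (∀ v, ∃ Q : ℕ, ∀ a ∈ A, v ≤ g a ↔ Q ∣ a) →
      (2 ^ (1 - θ) - 1) * ∑ v ∈ A.image g, rho θ (ic (A.filter fun a => g a = v)) ≤
        rho θ (ic A) := by
  intro n
  induction n with
  | zero =>
    intro A hA _
    rw [Finset.card_eq_zero] at hA
    rw [hA, Finset.sum_empty, mul_zero]
    exact rho_nonneg _ _
  | succ n ih =>
    intro A hAn hdiv
    have hne : (A.image g).Nonempty := Finset.card_pos.1 (by omega)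
    set v₀ := (A.image g).min' hne with hv₀
    have hv₀m : v₀ ∈ A.image g := Finset.min'_mem _ _
    set A₁ := A.filter fun a => v₀ + 1 ≤ g a with hA₁
    set A₀ := A.filter fun a => g a = v₀ with hA₀
    have him : A₁.image g = (A.image g).erase v₀ := by
      ext v
      rw [Finset.mem_image, Finset.mem_erase, Finset.mem_image]
      constructor
      · rintro ⟨a, ha, rfl⟩
        have h1 := Finset.mem_filter.1 ha
        exact ⟨by omega, a, h1.1, rfl⟩
      · rintro ⟨h1, a, ha, rfl⟩
        have h2 : v₀ ≤ g a := Finset.min'_le _ _ (Finset.mem_image_of_mem _ ha)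
        exact ⟨a, Finset.mem_filter.2 ⟨ha, by omega⟩, rfl⟩
    have h1 := ih A₁ (by rw [him, Finset.card_erase_of_mem hv₀m, hAn]; rfl) (fun v => by
      obtain ⟨Q, hQ⟩ := hdiv v
      exact ⟨Q, fun a ha => hQ a (Finset.mem_filter.1 ha).1⟩)
    obtain ⟨Q, hQ⟩ := hdiv (v₀ + 1)
    have h2 := rho_step hθ hθ1 (AddSubgroup.zmultiples (Q : ℤ)) (A := ic A) (A₀ := ic A₀)
      (A₁ := ic A₁) (ic_mono (Finset.filter_subset _ _)) (ic_mono (Finset.filter_subset _ _))
      (by
        intro a ha
        obtain ⟨b, hb, rfl⟩ := Finset.mem_image.1 ha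
        rw [Int.mem_zmultiples_iff, Int.natCast_dvd_natCast]
        obtain ⟨h3, h4⟩ := Finset.mem_filter.1 hb
        rw [← hQ b h3]
        omega)
      (by
        intro a ha
        obtain ⟨b, hb, rfl⟩ := Finset.mem_image.1 ha
        rw [Int.mem_zmultiples_iff, Int.natCast_dvd_natCast]
        obtain ⟨h3, h4⟩ := Finset.mem_filter.1 hb
        exact (hQ b h3).1 h4)
    rw [him] at h1
    rw [← Finset.add_sum_erase _ _ hv₀m, mul_add]
    have h3 : ∑ v ∈ (A.image g).erase v₀, rho θ (ic (A₁.filter fun a => g a = v)) =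
        ∑ v ∈ (A.image g).erase v₀, rho θ (ic (A.filter fun a => g a = v)) := by
      refine Finset.sum_congr rfl fun v hv => ?_
      congr 2
      ext a
      simp only [hA₁, Finset.mem_filter]
      constructor
      · rintro ⟨⟨h4, _⟩, h5⟩
        exact ⟨h4, h5⟩
      · rintro ⟨h4, h5⟩
        refine ⟨⟨h4, ?_⟩, h5⟩
        have h6 : v₀ ≤ g a := Finset.min'_le _ _ (Finset.mem_image_of_mem _ h4)
        have h7 := Finset.ne_of_mem_erase hv
        omega
    rw [h3] at h1
    linarith

lemma Lat.filter_pos {A : Finset ℕ} (hA : Lat A) {W : ℕ} {pos : ℕ → ℕ → ℕ} (h : Coord A W pos)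
    {i : ℕ} (hi : i < W) (V : Finset ℕ) : Lat (A.filter fun a => pos i a ∈ V) := by
  refine ⟨fun a ha => hA.ne_zero a (Finset.mem_filter.1 ha).1, ?_, ?_⟩
  · intro a ha b hb
    rw [Finset.mem_filter] at ha hb ⊢
    refine ⟨hA.gcd a ha.1 b hb.1, ?_⟩
    rw [h.gcd a ha.1 b hb.1 i hi]
    rcases min_choice (pos i a) (pos i b) with h1 | h1
    · rw [h1]; exact ha.2
    · rw [h1]; exact hb.2
  · intro a ha b hb
    rw [Finset.mem_filter] at ha hb ⊢
    refine ⟨hA.lcm a ha.1 b hb.1, ?_⟩
    rw [h.lcm a ha.1 b hb.1 i hi]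
    rcases max_choice (pos i a) (pos i b) with h1 | h1
    · rw [h1]; exact ha.2
    · rw [h1]; exact hb.2

lemma card_filter_eq_sum (A : Finset ℕ) (g : ℕ → ℕ) (V : Finset ℕ) (hV : V ⊆ A.image g) :
    (A.filter fun a => g a ∈ V).card = ∑ v ∈ V, (A.filter fun a => g a = v).card := by
  rw [Finset.card_eq_sum_card_fiberwise (s := A.filter fun a => g a ∈ V) (f := g) (t := V)
    (fun a ha => (Finset.mem_filter.1 ha).2)]
  refine Finset.sum_congr rfl fun v hv => ?_
  congr 1
  ext a
  simp only [Finset.mem_filter]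
  constructor
  · rintro ⟨⟨h1, _⟩, h2⟩
    exact ⟨h1, h2⟩
  · rintro ⟨h1, h2⟩
    exact ⟨⟨h1, h2 ▸ hv⟩, h2⟩

theorem decomp {θ κ η c l : ℝ} {L₀ : ℕ} (hθ : 1 / 2 ≤ θ) (hθ1 : θ < 1) (hκ0 : 0 ≤ κ)
    (hκ : κ < 1) (hη0 : 0 ≤ η) (hη1 : η < 1) (hc : c = 2 ^ (1 - θ) - 1) (hc0 : 0 < c)
    (hl0 : 0 < l) (hl : l ^ (1 - κ) ≤ c * η) (hL₀ : 1 / l ≤ L₀) (hL₀1 : 1 ≤ L₀)
    {W : ℕ} {pos : ℕ → ℕ → ℕ} {α : ℝ} (hα : 0 ≤ α) {A : Finset ℕ} (hco : Coord A W pos)
    (leaf : ∀ A' ⊆ A, Lat A' → A'.Nonempty → (∀ i < W, (A'.image (pos i)).card ≤ L₀) →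
      α * (A'.card : ℝ) ^ κ ≤ rho θ (ic A')) :
    ∀ j ≤ W, ∀ A' ⊆ A, Lat A' → A'.Nonempty →
      (∀ i, j ≤ i → i < W → (A'.image (pos i)).card ≤ L₀) →
      (1 - η) ^ j * α * (A'.card : ℝ) ^ κ ≤ rho θ (ic A') := by
  intro j
  have hη' : 0 < 1 - η := by linarith
  induction j with
  | zero =>
    intro _ A' hA' hL hne h
    rw [pow_zero, one_mul]
    exact leaf A' hA' hL hne fun i hi => h i (Nat.zero_le _) hi
  | succ j ih =>
    intro hj A' hA' hL hne h
    have hjW : j < W := by omega
    have ih' := ih (by omega)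
    have hco' := hco.mono hA'
    obtain ⟨N, hN⟩ : ∃ N : ℝ, N = (A'.card : ℝ) := ⟨_, rfl⟩
    have hN1 : 1 ≤ N := by rw [hN]; exact_mod_cast hne.card_pos
    have hN0 : 0 < N := by linarith
    have hp : 0 ≤ (1 - η) ^ j * α := mul_nonneg (pow_nonneg hη'.le _) hα
    have hNκ : 0 ≤ N ^ κ := Real.rpow_nonneg hN0.le _
    have hsub : ∀ V : Finset ℕ, ∀ i, ((A'.filter fun a => pos j a ∈ V).image (pos i)).card ≤
        (A'.image (pos i)).card := fun V i =>
      Finset.card_le_card (Finset.image_subset_image (Finset.filter_subset _ _))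
    rw [← hN]
    by_cases hcase : N ^ κ ≤ c * ∑ v ∈ A'.image (pos j),
        ((A'.filter fun a => pos j a = v).card : ℝ) ^ κ
    · -- expose the coordinate
      have h1 := rho_chain hθ hθ1 (pos j) _ A' rfl (hco'.div j hjW)
      rw [← hc] at h1
      refine le_trans ?_ h1
      have h2 : (1 - η) ^ j * α * ∑ v ∈ A'.image (pos j),
          ((A'.filter fun a => pos j a = v).card : ℝ) ^ κ ≤
          ∑ v ∈ A'.image (pos j), rho θ (ic (A'.filter fun a => pos j a = v)) := by
        rw [Finset.mul_sum]
        refine Finset.sum_le_sum fun v hv => ?_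
        have e : (A'.filter fun a => pos j a = v) = A'.filter fun a => pos j a ∈ ({v} : Finset ℕ) := by
          ext a; simp
        obtain ⟨a, ha, hav⟩ := Finset.mem_image.1 hv
        refine ih' _ ((Finset.filter_subset _ _).trans hA') (by
          rw [e]; exact hL.filter_pos hco' hjW {v}) ⟨a, Finset.mem_filter.2 ⟨ha, hav⟩⟩ ?_
        intro i hji hi
        rcases Nat.eq_or_lt_of_le hji with h3 | h3
        · subst h3
          have h4 : (A'.filter fun a => pos j a = v).image (pos j) ⊆ {v} := by
            intro u hu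
            obtain ⟨b, hb, rfl⟩ := Finset.mem_image.1 hu
            exact Finset.mem_singleton.2 (Finset.mem_filter.1 hb).2
          exact (Finset.card_le_card h4).trans (by rw [Finset.card_singleton]; exact hL₀1)
        · rw [e]
          exact (hsub {v} i).trans (h i h3 hi)
      calc (1 - η) ^ (j + 1) * α * N ^ κ ≤ (1 - η) ^ j * α * N ^ κ := by
            refine mul_le_mul_of_nonneg_right ?_ hNκ
            rw [pow_succ, mul_assoc]
            refine mul_le_mul_of_nonneg_left ?_ (pow_nonneg hη'.le _)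
            nlinarith
        _ ≤ (1 - η) ^ j * α * (c * ∑ v ∈ A'.image (pos j),
            ((A'.filter fun a => pos j a = v).card : ℝ) ^ κ) := mul_le_mul_of_nonneg_left hcase hp
        _ = c * ((1 - η) ^ j * α * ∑ v ∈ A'.image (pos j),
            ((A'.filter fun a => pos j a = v).card : ℝ) ^ κ) := by ring
        _ ≤ _ := mul_le_mul_of_nonneg_left h2 hc0.le
    · -- restrict to the popular values
      push Not at hcase
      set V := (A'.image (pos j)).filter fun v =>
        l * N ≤ ((A'.filter fun a => pos j a = v).card : ℝ) with hV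
      set A'' := A'.filter fun a => pos j a ∈ V with hA''
      have hVc : V.card ≤ L₀ := by
        have h1 : ∑ _v ∈ V, l * N ≤ ∑ v ∈ V, ((A'.filter fun a => pos j a = v).card : ℝ) :=
          Finset.sum_le_sum fun v hv => (Finset.mem_filter.1 hv).2
        have h2 : ∑ v ∈ V, ((A'.filter fun a => pos j a = v).card : ℝ) ≤ N := by
          have h3 := card_filter_eq_sum A' (pos j) V (Finset.filter_subset _ _)
          have h4 : (A'.filter fun a => pos j a ∈ V).card ≤ A'.card :=
            Finset.card_le_card (Finset.filter_subset _ _)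
          rw [h3] at h4
          rw [hN]
          exact_mod_cast h4
        rw [Finset.sum_const, nsmul_eq_mul] at h1
        have h5 : (V.card : ℝ) * l ≤ 1 := by
          have h6 : (V.card : ℝ) * l * N ≤ 1 * N := by linarith
          exact le_of_mul_le_mul_right h6 hN0
        have h7 : (V.card : ℝ) ≤ 1 / l := by rwa [le_div_iff₀ hl0]
        exact_mod_cast h7.trans hL₀
      have hrest : ((A'.filter fun a => ¬ pos j a ∈ V).card : ℝ) ≤ η * N := by
        set V' := (A'.image (pos j)).filter fun v =>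
          ¬ l * N ≤ ((A'.filter fun a => pos j a = v).card : ℝ) with hV'
        have e1 : (A'.filter fun a => ¬ pos j a ∈ V) = A'.filter fun a => pos j a ∈ V' := by
          ext a
          simp only [Finset.mem_filter, hV, hV']
          constructor
          · rintro ⟨h1, h2⟩
            refine ⟨h1, Finset.mem_image_of_mem _ h1, fun h3 => h2 ⟨Finset.mem_image_of_mem _ h1, h3⟩⟩
          · rintro ⟨h1, h2, h3⟩
            exact ⟨h1, fun h4 => h3 h4.2⟩
        rw [e1, card_filter_eq_sum A' (pos j) V' (Finset.filter_subset _ _)]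
        push_cast
        have h1 : ∀ v ∈ V', ((A'.filter fun a => pos j a = v).card : ℝ) ≤
            (l * N) ^ (1 - κ) * ((A'.filter fun a => pos j a = v).card : ℝ) ^ κ := by
          intro v hv
          have h2 := (Finset.mem_filter.1 hv).2
          push Not at h2
          obtain ⟨a, ha, hav⟩ := Finset.mem_image.1 (Finset.mem_filter.1 hv).1
          have h3 : (0 : ℝ) < (A'.filter fun a => pos j a = v).card := by
            exact_mod_cast Finset.card_pos.2 ⟨a, Finset.mem_filter.2 ⟨ha, hav⟩⟩
          calc ((A'.filter fun a => pos j a = v).card : ℝ) =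
              ((A'.filter fun a => pos j a = v).card : ℝ) ^ (1 - κ) *
                ((A'.filter fun a => pos j a = v).card : ℝ) ^ κ := by
                rw [← Real.rpow_add h3]; simp
            _ ≤ _ := mul_le_mul_of_nonneg_right
                (Real.rpow_le_rpow h3.le h2.le (by linarith)) (Real.rpow_nonneg h3.le _)
        have h2 : ∑ v ∈ V', ((A'.filter fun a => pos j a = v).card : ℝ) ^ κ ≤
            ∑ v ∈ A'.image (pos j), ((A'.filter fun a => pos j a = v).card : ℝ) ^ κ :=
          Finset.sum_le_sum_of_subset_of_nonneg (Finset.filter_subset _ _)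
            fun v _ _ => Real.rpow_nonneg (Nat.cast_nonneg _) _
        have h3 : ∑ v ∈ V', ((A'.filter fun a => pos j a = v).card : ℝ) ^ κ ≤ N ^ κ / c := by
          refine h2.trans ?_
          rw [le_div_iff₀ hc0, mul_comm]
          exact hcase.le
        calc ∑ v ∈ V', ((A'.filter fun a => pos j a = v).card : ℝ) ≤
            ∑ v ∈ V', (l * N) ^ (1 - κ) * ((A'.filter fun a => pos j a = v).card : ℝ) ^ κ :=
              Finset.sum_le_sum h1
          _ = (l * N) ^ (1 - κ) * ∑ v ∈ V', ((A'.filter fun a => pos j a = v).card : ℝ) ^ κ := by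
              rw [Finset.mul_sum]
          _ ≤ (l * N) ^ (1 - κ) * (N ^ κ / c) :=
              mul_le_mul_of_nonneg_left h3 (Real.rpow_nonneg (mul_pos hl0 hN0).le _)
          _ = l ^ (1 - κ) / c * (N ^ (1 - κ) * N ^ κ) := by
              rw [Real.mul_rpow hl0.le hN0.le]; ring
          _ = l ^ (1 - κ) / c * N := by rw [← Real.rpow_add hN0]; simp
          _ ≤ η * N := by
              refine mul_le_mul_of_nonneg_right ?_ hN0.le
              rw [div_le_iff₀ hc0, mul_comm]
              exact hl
      have hcard : (1 - η) * N ≤ (A''.card : ℝ) := by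
        have h1 := Finset.card_filter_add_card_filter_not (s := A') fun a => pos j a ∈ V
        have h2 : (A''.card : ℝ) + ((A'.filter fun a => ¬ pos j a ∈ V).card : ℝ) = N := by
          rw [hN]; exact_mod_cast h1
        linarith
      have hne'' : A''.Nonempty := by
        rw [← Finset.card_pos]
        have : (0 : ℝ) < A''.card := lt_of_lt_of_le (mul_pos hη' hN0) hcard
        exact_mod_cast this
      have h1 := ih' A'' ((Finset.filter_subset _ _).trans hA') (hL.filter_pos hco' hjW V) hne'' (by
        intro i hji hi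
        rcases Nat.eq_or_lt_of_le hji with h3 | h3
        · subst h3
          have h4 : A''.image (pos j) ⊆ V := by
            intro u hu
            obtain ⟨b, hb, rfl⟩ := Finset.mem_image.1 hu
            exact (Finset.mem_filter.1 hb).2
          exact (Finset.card_le_card h4).trans hVc
        · exact (hsub V i).trans (h i h3 hi))
      have h2 : rho θ (ic A'') ≤ rho θ (ic A') := rho_mono θ (ic_mono (Finset.filter_subset _ _))
      refine le_trans ?_ (h1.trans h2)
      have h3 : (1 - η) * N ^ κ ≤ (A''.card : ℝ) ^ κ := by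
        calc (1 - η) * N ^ κ ≤ (1 - η) ^ κ * N ^ κ := by
              refine mul_le_mul_of_nonneg_right ?_ hNκ
              calc 1 - η = (1 - η) ^ (1 : ℝ) := (Real.rpow_one _).symm
                _ ≤ (1 - η) ^ κ := Real.rpow_le_rpow_of_exponent_ge hη' (by linarith) hκ.le
          _ = ((1 - η) * N) ^ κ := (Real.mul_rpow hη'.le hN0.le).symm
          _ ≤ _ := Real.rpow_le_rpow (mul_pos hη' hN0).le hcard hκ0
      calc (1 - η) ^ (j + 1) * α * N ^ κ = (1 - η) ^ j * α * ((1 - η) * N ^ κ) := by ring
        _ ≤ _ := mul_le_mul_of_nonneg_left h3 hp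

end Pool.Agent.Run7.h386.GL
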