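import Pool.Agent.Run7.h386.GL.Decomp

/-!
The isoperimetric constant of a dilate, and the set of the sums `∑ l_i a_i`.
-/

set_option autoImplicit false

namespace Pool.Agent.Run7.h386.GL

open Finset Pool.Agent.TH83.SQ Pool.Agent.N811.IS
open scoped Pointwise Classical

/-- dilates -/
theorem rho_dil {θ : ℝ} (hθ1 : θ ≤ 1) {l : ℤ} (hl : l ≠ 0) (A : Finset ℤ) :
    rho θ A ≤ rho θ (dil l A) := by
  refine le_rho fun X hX => ?_
  have cX : (0 : ℝ) < X.card := by exact_mod_cast hX.card_pos
  set J := X.image fun x => x % l with hJ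
  set Y : ℤ → Finset ℤ := fun r => X.filter fun x => x % l = r with hY
  have hYne : ∀ r ∈ J, (Y r).Nonempty := by
    intro r hr
    obtain ⟨x, hx, hxr⟩ := Finset.mem_image.1 hr
    exact ⟨x, Finset.mem_filter.2 ⟨hx, hxr⟩⟩
  have hsum : X.card = ∑ r ∈ J, (Y r).card := Finset.card_eq_sum_card_image _ X
  have hpart : ∀ r ∈ J, rho θ A * ((Y r).card : ℝ) ^ θ ≤ ((dil l A + Y r).card : ℝ) := by
    intro r hr
    set Z := (Y r).image fun x => x / l with hZ
    have hZx : ∀ x ∈ Y r, x = r + l * (x / l) := by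
      intro x hx
      have h1 := (Finset.mem_filter.1 hx).2
      have h2 := Int.emod_add_mul_ediv x l
      rw [h1] at h2
      exact h2.symm
    have hZc : Z.card = (Y r).card := by
      refine Finset.card_image_of_injOn ?_
      intro x hx y hy h
      have h' : x / l = y / l := h
      rw [hZx x hx, hZx y hy, h']
    have hZne : Z.Nonempty := (hYne r hr).image _
    have h1 := rho_mul_le θ A hZne
    rw [hZc] at h1
    refine h1.trans ?_
    have h2 : (A + Z).card ≤ (dil l A + Y r).card := by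
      refine Finset.card_le_card_of_injOn (fun z => r + l * z) ?_ ?_
      · intro z hz
        obtain ⟨a, ha, b, hb, rfl⟩ := Finset.mem_add.1 hz
        obtain ⟨x, hx, rfl⟩ := Finset.mem_image.1 hb
        refine Finset.mem_add.2 ⟨l * a, Finset.mem_image_of_mem _ ha, x, hx, ?_⟩
        have h3 := hZx x hx
        change l * a + x = r + l * (a + x / l)
        rw [mul_add]
        linarith
      · intro z _ z' _ h
        have h3 : l * z = l * z' := by simpa using h
        exact mul_left_cancel₀ hl h3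
    exact_mod_cast h2
  have hdisj : Set.PairwiseDisjoint (↑J) fun r => dil l A + Y r := by
    intro r _ r' _ hne
    rw [Function.onFun, Finset.disjoint_left]
    intro z hz hz'
    have key : ∀ r, z ∈ dil l A + Y r → z % l = r := by
      intro r hz
      obtain ⟨a, ha, x, hx, rfl⟩ := Finset.mem_add.1 hz
      obtain ⟨b, hb, rfl⟩ := Finset.mem_image.1 ha
      rw [add_comm, Int.add_mul_emod_self_left]
      exact (Finset.mem_filter.1 hx).2
    exact hne ((key r hz).symm.trans (key r' hz'))
  have h1 : ∑ r ∈ J, (dil l A + Y r).card ≤ (dil l A + X).card := by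
    rw [← Finset.card_biUnion hdisj]
    refine Finset.card_le_card (Finset.biUnion_subset.2 fun r _ => ?_)
    exact Finset.add_subset_add_left (Finset.filter_subset _ _)
  have h2 : ∑ r ∈ J, ((dil l A + Y r).card : ℝ) ≤ ((dil l A + X).card : ℝ) := by
    exact_mod_cast h1
  refine le_trans ?_ h2
  have h3 : (X.card : ℝ) ^ θ ≤ ∑ r ∈ J, ((Y r).card : ℝ) ^ θ := by
    have h4 : ∀ r ∈ J, ((Y r).card : ℝ) * (X.card : ℝ) ^ (θ - 1) ≤ ((Y r).card : ℝ) ^ θ := by
      intro r hr
      have h5 : (0 : ℝ) < (Y r).card := by exact_mod_cast (hYne r hr).card_pos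
      have h6 : ((Y r).card : ℝ) ≤ X.card := by
        exact_mod_cast Finset.card_le_card (Finset.filter_subset _ _)
      calc ((Y r).card : ℝ) * (X.card : ℝ) ^ (θ - 1) ≤
          ((Y r).card : ℝ) * ((Y r).card : ℝ) ^ (θ - 1) :=
            mul_le_mul_of_nonneg_left (Real.rpow_le_rpow_of_nonpos h5 h6 (by linarith)) h5.le
        _ = ((Y r).card : ℝ) ^ θ := by
            rw [Real.rpow_sub_one h5.ne']; field_simp
    refine le_trans (le_of_eq ?_) (Finset.sum_le_sum h4)
    rw [← Finset.sum_mul]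
    have h5 : ∑ r ∈ J, ((Y r).card : ℝ) = X.card := by rw [hsum]; push_cast; rfl
    rw [h5, Real.rpow_sub_one cX.ne']
    field_simp
  calc rho θ A * (X.card : ℝ) ^ θ ≤ rho θ A * ∑ r ∈ J, ((Y r).card : ℝ) ^ θ :=
        mul_le_mul_of_nonneg_left h3 (rho_nonneg _ _)
    _ = ∑ r ∈ J, rho θ A * ((Y r).card : ℝ) ^ θ := by rw [Finset.mul_sum]
    _ ≤ _ := Finset.sum_le_sum hpart

/-- the set of the sums `∑ l_i a_i` -/
def sm (k : ℕ) (A : Fin k → Finset ℕ) (l : Fin k → ℤ) : Finset ℤ :=
  (Fintype.piFinset A).image fun f => ∑ i, l i * (f i : ℤ)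

end Pool.Agent.Run7.h386.GL
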