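import Pool.Agent.Run7.h386.GL.Cube
import Pool.Agent.N811.IS.Step
import Pool.Agent.TH83.SQ.Defs

/-!
Many members of a set closed under gcd and lcm which have a cube in common.
-/

set_option autoImplicit false

namespace Pool.Agent.Run7.h386.GL

open Finset Pool.Agent.TH83.SQ Pool.Agent.N811.IS
open scoped Pointwise Classical

/-- the set as a set of integers -/
def ic (A : Finset ℕ) : Finset ℤ := A.image fun a : ℕ => (a : ℤ)

lemma ic_card (A : Finset ℕ) : (ic A).card = A.card :=
  Finset.card_image_of_injective _ Nat.cast_injective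

lemma ic_nonempty {A : Finset ℕ} (h : A.Nonempty) : (ic A).Nonempty := h.image _

lemma ic_mono {A B : Finset ℕ} (h : A ⊆ B) : ic A ⊆ ic B := Finset.image_subset_image h

/-- the number of small subsets -/
lemma small_subsets {α : Type*} (S : Finset α) (w : ℕ) {x : ℝ} (hx : 0 < x) (hx1 : x ≤ 1) :
    ((S.powerset.filter fun s => s.card ≤ w).card : ℝ) ≤
      Real.exp (x * S.card + w * Real.log (1 / x)) := by
  have h1 : ((S.powerset.filter fun s => s.card ≤ w).card : ℝ) * x ^ w ≤ (x + 1) ^ S.card := by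
    rw [← Finset.sum_pow_mul_eq_add_pow x 1 S, ← nsmul_eq_mul, ← Finset.sum_const]
    refine (Finset.sum_le_sum fun s hs => ?_).trans
      (Finset.sum_le_sum_of_subset_of_nonneg (Finset.filter_subset _ _) fun s _ _ => ?_)
    · rw [one_pow, mul_one]
      exact pow_le_pow_of_le_one hx.le hx1 (Finset.mem_filter.1 hs).2
    · positivity
  have h2 : (x + 1) ^ S.card ≤ Real.exp (x * S.card) := by
    rw [mul_comm, Real.exp_nat_mul]
    exact pow_le_pow_left₀ (by positivity) (Real.add_one_le_exp x) _
  have h3 : Real.exp (w * Real.log (1 / x)) = (x ^ w)⁻¹ := by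
    rw [one_div, Real.log_inv, Real.exp_nat_mul, Real.exp_neg, Real.exp_log hx, inv_pow]
  rw [Real.exp_add, h3, ← div_eq_mul_inv, le_div_iff₀ (by positivity)]
  exact h1.trans h2

lemma Lat.card_le (A : Finset ℕ) (hA : Lat A) : A.card ≤ 2 ^ (DD A).card := by
  rw [← Finset.card_powerset]
  refine Finset.card_le_card_of_injOn (fun a => (DD A).filter fun D => a ∈ D) ?_ ?_
  · intro a _
    exact Finset.mem_powerset.2 (Finset.filter_subset _ _)
  · intro a ha b hb h
    refine hA.sep ha hb fun D hD => ?_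
    have h1 : D ∈ (DD A).filter (fun D => a ∈ D) ↔ D ∈ (DD A).filter (fun D => b ∈ D) := by
      simp only at h
      rw [h]
    simpa only [Finset.mem_filter, hD, true_and] using h1

/-- many elements with a common cube -/
theorem Lat.common (A : Finset ℕ) (hA : Lat A) (hne : A.Nonempty) (w : ℕ) (K : ℝ) (hK : 1 ≤ K)
    (hsm : (((DD A).powerset.filter fun s => s.card ≤ w).card : ℝ) ≤ K)
    (hK2 : 2 * K ≤ A.card) :
    ∃ X ⊆ A, X.Nonempty ∧ (A.card : ℝ) / (2 * K) ≤ X.card ∧ ∃ M : Finset (Finset ℕ), M.card = w ∧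
      ∀ a ∈ X, M ⊆ ub A a := by
  set A₁ := A.filter fun a => w ≤ (ub A a).card with hA₁
  have h1 : ((A.filter fun a => ¬ w ≤ (ub A a).card).card : ℝ) ≤ K := by
    refine le_trans ?_ hsm
    have : (A.filter fun a => ¬ w ≤ (ub A a).card).card ≤
        ((DD A).powerset.filter fun s => s.card ≤ w).card := by
      refine Finset.card_le_card_of_injOn (fun a => ub A a) ?_ ?_
      · intro a ha
        rw [Finset.mem_coe, Finset.mem_filter] at ha
        change ub A a ∈ _
        rw [Finset.mem_coe, Finset.mem_filter, Finset.mem_powerset]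
        exact ⟨Finset.filter_subset _ _, by omega⟩
      · intro a ha b hb h
        rw [Finset.mem_coe, Finset.mem_filter] at ha hb
        exact hA.ub_inj ha.1 hb.1 h
    exact_mod_cast this
  have h2 : (A.card : ℝ) / 2 ≤ A₁.card := by
    have h3 : (A₁.card : ℝ) + ((A.filter fun a => ¬ w ≤ (ub A a).card).card : ℝ) = A.card := by
      have := Finset.card_filter_add_card_filter_not (s := A) fun a => w ≤ (ub A a).card
      exact_mod_cast this
    linarith
  have h3 : ∀ a ∈ A₁, ∃ M ⊆ ub A a, M.card = w := by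
    intro a ha
    exact Finset.exists_subset_card_eq (Finset.mem_filter.1 ha).2
  choose! M hM1 hM2 using h3
  set T := (DD A).powerset.filter fun s => s.card ≤ w with hT
  have hmaps : ∀ a ∈ A₁, M a ∈ T := by
    intro a ha
    rw [hT, Finset.mem_filter, Finset.mem_powerset]
    exact ⟨(hM1 a ha).trans (Finset.filter_subset _ _), (hM2 a ha).le⟩
  have hTne : T.Nonempty := ⟨∅, by simp [hT]⟩
  have hK0 : (0 : ℝ) < K := by linarith
  have cA : (0 : ℝ) < A.card := by exact_mod_cast hne.card_pos
  have hb : T.card • ((A.card : ℝ) / (2 * K)) ≤ (A₁.card : ℝ) := by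
    rw [nsmul_eq_mul]
    refine le_trans (mul_le_mul_of_nonneg_right hsm (by positivity)) (le_trans (le_of_eq ?_) h2)
    field_simp
  obtain ⟨y, hy, hyc⟩ := Finset.exists_le_card_fiber_of_nsmul_le_card_of_maps_to hmaps hTne hb
  set X := A₁.filter fun a => M a = y with hX
  have hXne : X.Nonempty := by
    rw [← Finset.card_pos]
    have : (0 : ℝ) < X.card := lt_of_lt_of_le (by positivity) hyc
    exact_mod_cast this
  refine ⟨X, fun a ha => (Finset.mem_filter.1 (Finset.mem_filter.1 ha).1).1, hXne, hyc, y, ?_, ?_⟩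
  · obtain ⟨a, ha⟩ := hXne
    obtain ⟨ha1, ha2⟩ := Finset.mem_filter.1 ha
    rw [← ha2]
    exact hM2 a ha1
  · intro a ha
    obtain ⟨ha1, ha2⟩ := Finset.mem_filter.1 ha
    rw [← ha2]
    exact hM1 a ha1

end Pool.Agent.Run7.h386.GL
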