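import Pool.Agent.Run7.h386.GL.Lat

/-!
Coordinates on a finite set of integers closed under gcd and lcm: by Dilworth's theorem its prime
filters form at most `log_2 |A|` chains; the positions in these chains are homomorphisms to chains.
-/

set_option autoImplicit false

namespace Pool.Agent.Run7.h386.GL

open Finset
open scoped Classical

/-- `W` homomorphisms to chains, defined by divisibilities, which separate the elements -/
structure Coord (A : Finset ℕ) (W : ℕ) (pos : ℕ → ℕ → ℕ) : Prop where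
  gcd : ∀ a ∈ A, ∀ b ∈ A, ∀ i < W, pos i (Nat.gcd a b) = min (pos i a) (pos i b)
  lcm : ∀ a ∈ A, ∀ b ∈ A, ∀ i < W, pos i (Nat.lcm a b) = max (pos i a) (pos i b)
  inj : ∀ a ∈ A, ∀ b ∈ A, (∀ i < W, pos i a = pos i b) → a = b
  div : ∀ i < W, ∀ v, ∃ Q : ℕ, ∀ a ∈ A, v ≤ pos i a ↔ Q ∣ a

lemma Coord.mono {A A' : Finset ℕ} {W : ℕ} {pos : ℕ → ℕ → ℕ} (h : Coord A W pos) (hs : A' ⊆ A) :
    Coord A' W pos :=
  ⟨fun a ha b hb => h.gcd a (hs ha) b (hs hb), fun a ha b hb => h.lcm a (hs ha) b (hs hb),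
    fun a ha b hb => h.inj a (hs ha) b (hs hb), fun i hi v => by
      obtain ⟨Q, hQ⟩ := h.div i hi v
      exact ⟨Q, fun a ha => hQ a (hs ha)⟩⟩

lemma card_inter_min {α : Type*} [DecidableEq α] {U V : Finset α} (h : U ⊆ V ∨ V ⊆ U) :
    (U ∩ V).card = min U.card V.card := by
  rcases h with h | h
  · rw [Finset.inter_eq_left.2 h, min_eq_left (Finset.card_le_card h)]
  · rw [Finset.inter_eq_right.2 h, min_eq_right (Finset.card_le_card h)]

lemma card_union_max {α : Type*} [DecidableEq α] {U V : Finset α} (h : U ⊆ V ∨ V ⊆ U) :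
    (U ∪ V).card = max U.card V.card := by
  rcases h with h | h
  · rw [Finset.union_eq_right.2 h, max_eq_right (Finset.card_le_card h)]
  · rw [Finset.union_eq_left.2 h, max_eq_left (Finset.card_le_card h)]

/-- existence of coordinates -/
theorem Lat.exists_coord {A : Finset ℕ} (hA : Lat A) (hne : A.Nonempty) :
    ∃ (W : ℕ) (pos : ℕ → ℕ → ℕ), 2 ^ W ≤ A.card ∧ Coord A W pos := by
  have hc0 : A.card ≠ 0 := Finset.card_ne_zero.2 hne
  obtain ⟨f, hf1, hf2⟩ := Pool.Agent.H643R2.ChainDec.dilworth_finset (α := Finset ℕ) (DD A).card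
    (Nat.log 2 A.card) (DD A) rfl (fun S hS hac => by
      have := hA.antichain hne hS hac
      exact Nat.le_log_of_pow_le (by norm_num) this)
  set U : ℕ → ℕ → Finset (Finset ℕ) := fun i a => (DD A).filter fun D => f D = i ∧ a ∈ D with hU
  have nested : ∀ i a b, U i a ⊆ U i b ∨ U i b ⊆ U i a := by
    intro i a b
    by_contra hcon
    push Not at hcon
    obtain ⟨h1, h2⟩ := hcon
    obtain ⟨D, hD, hD'⟩ := Finset.not_subset.1 h1
    obtain ⟨D₁, hD₁, hD₁'⟩ := Finset.not_subset.1 h2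
    rw [hU, Finset.mem_filter] at hD hD₁
    rcases hf2 D hD.1 D₁ hD₁.1 (hD.2.1.trans hD₁.2.1.symm) with h | h
    · exact hD₁' (Finset.mem_filter.2 ⟨hD₁.1, hD₁.2.1, h hD.2.2⟩)
    · exact hD' (Finset.mem_filter.2 ⟨hD.1, hD.2.1, h hD₁.2.2⟩)
  have hg : ∀ a ∈ A, ∀ b ∈ A, ∀ i, U i (Nat.gcd a b) = U i a ∩ U i b := by
    intro a ha b hb i
    ext D
    simp only [hU, Finset.mem_filter, Finset.mem_inter]
    constructor
    · rintro ⟨h1, h2, h3⟩
      have := (hA.mem_gcd h1 ha hb).1 h3
      exact ⟨⟨h1, h2, this.1⟩, ⟨h1, h2, this.2⟩⟩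
    · rintro ⟨⟨h1, h2, h3⟩, ⟨_, _, h4⟩⟩
      exact ⟨h1, h2, (hA.mem_gcd h1 ha hb).2 ⟨h3, h4⟩⟩
  have hl : ∀ a ∈ A, ∀ b ∈ A, ∀ i, U i (Nat.lcm a b) = U i a ∪ U i b := by
    intro a ha b hb i
    ext D
    simp only [hU, Finset.mem_filter, Finset.mem_union]
    constructor
    · rintro ⟨h1, h2, h3⟩
      rcases (hA.mem_lcm h1 ha hb).1 h3 with h | h
      · exact Or.inl ⟨h1, h2, h⟩
      · exact Or.inr ⟨h1, h2, h⟩
    · rintro (⟨h1, h2, h3⟩ | ⟨h1, h2, h3⟩)
      · exact ⟨h1, h2, (hA.mem_lcm h1 ha hb).2 (Or.inl h3)⟩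
      · exact ⟨h1, h2, (hA.mem_lcm h1 ha hb).2 (Or.inr h3)⟩
  have hmono : ∀ a ∈ A, ∀ b ∈ A, a ∣ b → ∀ i, (U i a).card ≤ (U i b).card := by
    intro a ha b hb h i
    refine Finset.card_le_card fun D hD => ?_
    simp only [hU, Finset.mem_filter] at hD ⊢
    exact ⟨hD.1, hD.2.1, mem_of_dvd hD.1 hD.2.2 hb h⟩
  refine ⟨Nat.log 2 A.card, fun i a => (U i a).card, Nat.pow_log_le_self 2 hc0, ?_, ?_, ?_, ?_⟩
  · intro a ha b hb i _
    rw [hg a ha b hb i, card_inter_min (nested i a b)]
  · intro a ha b hb i _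
    rw [hl a ha b hb i, card_union_max (nested i a b)]
  · intro a ha b hb h
    refine hA.sep ha hb fun D hD => ?_
    have h1 := h (f D) (hf1 D hD)
    have h2 : U (f D) a = U (f D) b := by
      rcases nested (f D) a b with h3 | h3
      · exact Finset.eq_of_subset_of_card_le h3 h1.ge
      · exact (Finset.eq_of_subset_of_card_le h3 h1.le).symm
    have h3 : D ∈ U (f D) a ↔ D ∈ U (f D) b := by rw [h2]
    simpa only [hU, Finset.mem_filter, hD, true_and] using h3
  · intro i _ v
    set S := A.filter fun a => v ≤ (U i a).card with hS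
    rcases S.eq_empty_or_nonempty with h0 | hn
    · refine ⟨0, fun a ha => ?_⟩
      constructor
      · intro h
        have : a ∈ S := Finset.mem_filter.2 ⟨ha, h⟩
        rw [h0] at this
        exact absurd this (Finset.notMem_empty a)
      · intro h
        exact absurd (Nat.eq_zero_of_zero_dvd h) (hA.ne_zero a ha)
    · refine ⟨S.gcd id, fun a ha => ?_⟩
      have h1 : S.gcd id ∈ S := by
        refine gcd_mem_of_closed hn fun x hx y hy => ?_
        rw [hS, Finset.mem_filter] at hx hy ⊢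
        refine ⟨hA.gcd x hx.1 y hy.1, ?_⟩
        rw [hg x hx.1 y hy.1 i, card_inter_min (nested i x y)]
        exact le_min hx.2 hy.2
      constructor
      · intro h
        exact Finset.gcd_dvd (f := id) (Finset.mem_filter.2 ⟨ha, h⟩)
      · intro h
        rw [hS, Finset.mem_filter] at h1
        exact h1.2.trans (hmono _ h1.1 a ha h i)

/-- the number of the prime filters is bounded by the number of the positions -/
theorem Coord.card_DD {A : Finset ℕ} {W : ℕ} {pos : ℕ → ℕ → ℕ} (h : Coord A W pos) (hA : Lat A) :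
    (DD A).card ≤ ∑ i ∈ Finset.range W, (A.image (pos i)).card := by
  have hmono : ∀ a ∈ A, ∀ b ∈ A, a ∣ b → ∀ i < W, pos i a ≤ pos i b := by
    intro a ha b hb hab i hi
    have := h.gcd a ha b hb i hi
    rw [Nat.gcd_eq_left hab] at this
    omega
  have key : ∀ D ∈ DD A, ∃ i < W, ∃ u ∈ A.image (pos i), D = A.filter fun a => u ≤ pos i a := by
    intro D hD
    obtain ⟨_, hDne, hDA⟩ := mem_DD hD
    set j := D.gcd id with hj
    have hjD : j ∈ D := hA.gcd_mem hD
    have hjA : j ∈ A := DD_sub hD hjD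
    -- the greatest element outside of `D`
    set C := A.filter fun a => a ∉ D with hC
    have hCne : C.Nonempty := by
      by_contra hcon
      rw [Finset.not_nonempty_iff_eq_empty] at hcon
      apply hDA
      refine subset_antisymm (DD_sub hD) fun a ha => ?_
      by_contra h1
      have : a ∈ C := Finset.mem_filter.2 ⟨ha, h1⟩
      rw [hcon] at this
      exact Finset.notMem_empty a this
    set m := C.lcm id with hm
    have hmC : m ∈ C := by
      refine lcm_mem_of_closed hCne fun x hx y hy => ?_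
      rw [hC, Finset.mem_filter] at hx hy ⊢
      refine ⟨hA.lcm x hx.1 y hy.1, ?_⟩
      rw [hA.mem_lcm hD hx.1 hy.1]
      push Not
      exact ⟨hx.2, hy.2⟩
    obtain ⟨hmA, hmD⟩ := Finset.mem_filter.1 hmC
    have hex : ∃ i < W, pos i m < pos i j := by
      by_contra hcon
      push Not at hcon
      have h1 : Nat.lcm m j = m := by
        refine h.inj _ (hA.lcm m hmA j hjA) _ hmA fun i hi => ?_
        rw [h.lcm m hmA j hjA i hi, max_eq_left (hcon i hi)]
      have h2 : j ∣ m := by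
        rw [← h1]; exact Nat.dvd_lcm_right m j
      exact hmD (mem_of_dvd hD hjD hmA h2)
    obtain ⟨i, hi, hlt⟩ := hex
    refine ⟨i, hi, pos i j, Finset.mem_image_of_mem _ hjA, ?_⟩
    ext a
    rw [Finset.mem_filter]
    constructor
    · intro ha
      exact ⟨DD_sub hD ha, hmono j hjA a (DD_sub hD ha) (Finset.gcd_dvd (f := id) ha) i hi⟩
    · rintro ⟨ha, h1⟩
      by_contra h2
      have h3 : a ∣ m := Finset.dvd_lcm (f := id) (Finset.mem_filter.2 ⟨ha, h2⟩ : a ∈ C)
      have h4 := hmono a ha m hmA h3 i hi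
      omega
  have h1 : DD A ⊆ (Finset.range W).biUnion fun i => (A.image (pos i)).image fun u =>
      A.filter fun a => u ≤ pos i a := by
    intro D hD
    obtain ⟨i, hi, u, hu, rfl⟩ := key D hD
    exact Finset.mem_biUnion.2 ⟨i, Finset.mem_range.2 hi, Finset.mem_image_of_mem _ hu⟩
  refine (Finset.card_le_card h1).trans (Finset.card_biUnion_le.trans ?_)
  exact Finset.sum_le_sum fun i _ => Finset.card_image_le

end Pool.Agent.Run7.h386.GL
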