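import Pool.Agent.Run7.h386.GL.Coord

/-!
Cubes in a finite set of integers closed under gcd and lcm: the prime filters which are maximal
among those not containing `a` give pairwise coprime integers `m` such that all the products of
`a` and different `m` are in the set.
-/

set_option autoImplicit false

namespace Pool.Agent.Run7.h386.GL

open Finset
open scoped Classical

/-- the maximal prime filters which do not contain `a` -/
noncomputable def ub (A : Finset ℕ) (a : ℕ) : Finset (Finset ℕ) :=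
  (DD A).filter fun D => a ∉ D ∧ ∀ D' ∈ DD A, a ∉ D' → D ⊆ D' → D' = D

/-- the ratio -/
noncomputable def rt (a : ℕ) (D : Finset ℕ) : ℕ := D.gcd id / Nat.gcd a (D.gcd id)

variable {A : Finset ℕ}

lemma mem_ub {a : ℕ} {D : Finset ℕ} : D ∈ ub A a ↔
    D ∈ DD A ∧ a ∉ D ∧ ∀ D' ∈ DD A, a ∉ D' → D ⊆ D' → D' = D := Finset.mem_filter

lemma notMem_iff {a : ℕ} {D : Finset ℕ} (hD : D ∈ DD A) : a ∉ D ↔ ∃ E ∈ ub A a, D ⊆ E := by
  constructor
  · intro h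
    obtain ⟨E, hE1, hE2⟩ := Finset.exists_le_maximal ((DD A).filter fun D => a ∉ D)
      (Finset.mem_filter.2 ⟨hD, h⟩)
    have hE3 := Finset.mem_filter.1 hE2.1
    refine ⟨E, mem_ub.2 ⟨hE3.1, hE3.2, fun D' hD' ha' hsub => ?_⟩, hE1⟩
    exact le_antisymm (hE2.2 (Finset.mem_filter.2 ⟨hD', ha'⟩) hsub) hsub
  · rintro ⟨E, hE, hsub⟩ h
    exact (mem_ub.1 hE).2.1 (hsub h)

lemma Lat.ub_inj (hA : Lat A) {a b : ℕ} (ha : a ∈ A) (hb : b ∈ A) (h : ub A a = ub A b) :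
    a = b := by
  refine hA.sep ha hb fun D hD => ?_
  have h1 : a ∉ D ↔ b ∉ D := by rw [notMem_iff hD, notMem_iff hD, h]
  exact not_iff_not.1 h1

lemma Lat.mem_gcd_ub (hA : Lat A) {a : ℕ} (ha : a ∈ A) {D : Finset ℕ} (hD : D ∈ ub A a)
    {D' : Finset ℕ} (hD' : D' ∈ DD A) : Nat.gcd a (D.gcd id) ∈ D' ↔ D ⊆ D' ∧ D' ≠ D := by
  obtain ⟨h1, h2, h3⟩ := mem_ub.1 hD
  rw [hA.mem_gcd hD' ha (DD_sub h1 (hA.gcd_mem h1)), hA.gcd_mem_iff h1 hD']
  constructor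
  · rintro ⟨h4, h5⟩
    exact ⟨h5, fun h => h2 (h ▸ h4)⟩
  · rintro ⟨h4, h5⟩
    refine ⟨?_, h4⟩
    by_contra h6
    exact h5 (h3 D' hD' h6 h4)

lemma Lat.rt_indep (hA : Lat A) {a a' : ℕ} (ha : a ∈ A) (ha' : a' ∈ A) {D : Finset ℕ}
    (hD : D ∈ ub A a) (hD' : D ∈ ub A a') : rt a D = rt a' D := by
  have h1 := (mem_ub.1 hD).1
  have hj := DD_sub h1 (hA.gcd_mem h1)
  have : Nat.gcd a (D.gcd id) = Nat.gcd a' (D.gcd id) := by
    refine hA.sep (hA.gcd _ ha _ hj) (hA.gcd _ ha' _ hj) fun D₁ hD₁ => ?_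
    rw [hA.mem_gcd_ub ha hD hD₁, hA.mem_gcd_ub ha' hD' hD₁]
  unfold rt
  rw [this]

lemma mul_rt (a : ℕ) (D : Finset ℕ) : a * rt a D = Nat.lcm a (D.gcd id) := by
  unfold rt Nat.lcm
  rw [Nat.mul_div_assoc _ (Nat.gcd_dvd_right _ _)]

lemma Lat.mul_rt_mem (hA : Lat A) {a : ℕ} (ha : a ∈ A) {D : Finset ℕ} (hD : D ∈ DD A) :
    a * rt a D ∈ A := by
  rw [mul_rt]
  exact hA.lcm a ha _ (DD_sub hD (hA.gcd_mem hD))

lemma Lat.two_le_rt (hA : Lat A) {a : ℕ} (ha : a ∈ A) {D : Finset ℕ} (hD : D ∈ ub A a) :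
    2 ≤ rt a D := by
  obtain ⟨h1, h2, _⟩ := mem_ub.1 hD
  have hj := hA.gcd_mem h1
  have h3 := hA.mul_rt_mem ha h1
  have h4 := hA.ne_zero _ h3
  have h5 : rt a D ≠ 0 := fun h => h4 (by rw [h, mul_zero])
  have h6 : rt a D ≠ 1 := by
    intro h
    have h7 := mul_rt a D
    rw [h, mul_one] at h7
    apply h2
    refine mem_of_dvd h1 hj ha ?_
    rw [h7]
    exact Nat.dvd_lcm_right _ _
  omega

lemma Lat.rt_coprime (hA : Lat A) {a : ℕ} (ha : a ∈ A) {D D' : Finset ℕ} (hD : D ∈ ub A a)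
    (hD' : D' ∈ ub A a) (hne : D ≠ D') : Nat.Coprime (rt a D) (rt a D') := by
  obtain ⟨h1, h2, h3⟩ := mem_ub.1 hD
  obtain ⟨h1', h2', h3'⟩ := mem_ub.1 hD'
  have hj := DD_sub h1 (hA.gcd_mem h1)
  have hj' := DD_sub h1' (hA.gcd_mem h1')
  have hm := hA.mul_rt_mem ha h1
  have hm' := hA.mul_rt_mem ha h1'
  have key : Nat.gcd (a * rt a D) (a * rt a D') = a := by
    refine hA.sep (hA.gcd _ hm _ hm') ha fun D₁ hD₁ => ?_
    rw [hA.mem_gcd hD₁ hm hm', mul_rt, mul_rt, hA.mem_lcm hD₁ ha hj, hA.mem_lcm hD₁ ha hj',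
      hA.gcd_mem_iff h1 hD₁, hA.gcd_mem_iff h1' hD₁]
    constructor
    · rintro ⟨h4 | h4, h5 | h5⟩
      · exact h4
      · exact h4
      · exact h5
      · by_contra h6
        exact hne ((h3 D₁ hD₁ h6 h4).symm.trans (h3' D₁ hD₁ h6 h5))
    · intro h
      exact ⟨Or.inl h, Or.inl h⟩
  rw [Nat.gcd_mul_left] at key
  have ha0 : 0 < a := Nat.pos_of_ne_zero (hA.ne_zero a ha)
  exact Nat.eq_of_mul_eq_mul_left ha0 (by rw [key, mul_one])

end Pool.Agent.Run7.h386.GL
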