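import Mathlib

/-!
In a large set of pairwise coprime integers with bounded prime exponents there is a member with a
prime factor modulo which the other members take many values: otherwise the product of the
differences of the members would be divisible by too high powers of all their prime factors.
-/

set_option autoImplicit false

namespace Pool.Agent.Run7.h386.GL

open Finset
open scoped Classical

/-- the product of the prime factors of the members -/
noncomputable def rd (M : Finset ℕ) : ℕ := ∏ m ∈ M, ∏ q ∈ m.primeFactors, q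

/-- the product of the differences -/
noncomputable def dl (M : Finset ℕ) : ℕ := ∏ x ∈ M.offDiag, ((x.1 : ℤ) - x.2).natAbs

lemma dl_pos (M : Finset ℕ) : 0 < dl M := by
  unfold dl
  refine Finset.prod_pos fun x hx => ?_
  rw [Finset.mem_offDiag] at hx
  apply Int.natAbs_pos.2
  intro h
  apply hx.2.2
  have : (x.1 : ℤ) = x.2 := by linarith
  exact_mod_cast this

lemma dl_le {M : Finset ℕ} (hM : ∀ m ∈ M, 1 ≤ m) : dl M ≤ (∏ m ∈ M, m) ^ (2 * (M.card - 1)) := by
  have h1 : dl M ≤ ∏ x ∈ M.offDiag, (x.1 * x.2) := by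
    unfold dl
    refine Finset.prod_le_prod' fun x hx => ?_
    rw [Finset.mem_offDiag] at hx
    have a1 := hM _ hx.1
    have a2 := hM _ hx.2.1
    have h3 : x.1 ≤ x.1 * x.2 := Nat.le_mul_of_pos_right _ a2
    have h4 : x.2 ≤ x.1 * x.2 := Nat.le_mul_of_pos_left _ a1
    omega
  have key : ∀ (f : ℕ × ℕ → ℕ) (_ : ∀ m ∈ M, (M.offDiag.filter fun x => f x = m).card = M.card - 1)
      (_ : ∀ x ∈ M.offDiag, f x ∈ M), ∏ x ∈ M.offDiag, f x = (∏ m ∈ M, m) ^ (M.card - 1) := by
    intro f hf hfm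
    rw [← Finset.prod_pow, ← Finset.prod_fiberwise_of_maps_to hfm]
    refine Finset.prod_congr rfl fun m hm => ?_
    rw [Finset.prod_congr rfl (g := fun _ => m) (fun x hx => (Finset.mem_filter.1 hx).2),
      Finset.prod_const, hf m hm]
  have h2 : ∏ x ∈ M.offDiag, x.1 = (∏ m ∈ M, m) ^ (M.card - 1) := by
    refine key (fun x => x.1) (fun m hm => ?_) (fun x hx => (Finset.mem_offDiag.1 hx).1)
    rw [← Finset.card_erase_of_mem hm]
    refine Finset.card_bij (fun x _ => x.2) ?_ ?_ ?_
    · intro x hx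
      rw [Finset.mem_filter, Finset.mem_offDiag] at hx
      rw [Finset.mem_erase]
      exact ⟨fun h => hx.1.2.2 (by rw [hx.2, h]), hx.1.2.1⟩
    · intro x hx y hy h
      rw [Finset.mem_filter] at hx hy
      exact Prod.ext (by rw [hx.2, hy.2]) h
    · intro b hb
      rw [Finset.mem_erase] at hb
      exact ⟨(m, b), by rw [Finset.mem_filter, Finset.mem_offDiag]; exact ⟨⟨hm, hb.2, Ne.symm hb.1⟩, rfl⟩, rfl⟩
  have h3 : ∏ x ∈ M.offDiag, x.2 = (∏ m ∈ M, m) ^ (M.card - 1) := by
    refine key (fun x => x.2) (fun m hm => ?_) (fun x hx => (Finset.mem_offDiag.1 hx).2.1)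
    rw [← Finset.card_erase_of_mem hm]
    refine Finset.card_bij (fun x _ => x.1) ?_ ?_ ?_
    · intro x hx
      rw [Finset.mem_filter, Finset.mem_offDiag] at hx
      rw [Finset.mem_erase]
      exact ⟨fun h => hx.1.2.2 (by rw [hx.2, h]), hx.1.1⟩
    · intro x hx y hy h
      rw [Finset.mem_filter] at hx hy
      exact Prod.ext h (by rw [hx.2, hy.2])
    · intro b hb
      rw [Finset.mem_erase] at hb
      exact ⟨(b, m), by rw [Finset.mem_filter, Finset.mem_offDiag]; exact ⟨⟨hb.2, hm, hb.1⟩, rfl⟩, rfl⟩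
  rw [Finset.prod_mul_distrib, h2, h3, ← pow_add] at h1
  rwa [two_mul]

/-- many congruent pairs -/
lemma pairs {q : ℕ} (N : Finset ℕ) {D : ℕ} (hD : (N.image fun x : ℕ => (x : ZMod q)).card ≤ D) :
    N.card ^ 2 ≤ D * ((N.offDiag.filter fun x => (x.1 : ZMod q) = x.2).card + N.card) := by
  set J := N.image fun x : ℕ => (x : ZMod q) with hJ
  set f : ZMod q → Finset ℕ := fun c => N.filter fun x : ℕ => (x : ZMod q) = c with hf
  have h1 : N.card = ∑ c ∈ J, (f c).card := Finset.card_eq_sum_card_image _ N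
  have h2 : (N ×ˢ N).filter (fun x => (x.1 : ZMod q) = x.2) = J.biUnion fun c => f c ×ˢ f c := by
    ext x
    rw [Finset.mem_filter, Finset.mem_product, Finset.mem_biUnion]
    constructor
    · rintro ⟨⟨a, b⟩, c⟩
      exact ⟨(x.1 : ZMod q), Finset.mem_image_of_mem _ a, Finset.mem_product.2
        ⟨Finset.mem_filter.2 ⟨a, rfl⟩, Finset.mem_filter.2 ⟨b, c.symm⟩⟩⟩
    · rintro ⟨c, _, hc⟩
      rw [Finset.mem_product, Finset.mem_filter, Finset.mem_filter] at hc
      exact ⟨⟨hc.1.1, hc.2.1⟩, by rw [hc.1.2, hc.2.2]⟩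
  have h3 : ((N ×ˢ N).filter (fun x => (x.1 : ZMod q) = x.2)).card = ∑ c ∈ J, (f c).card ^ 2 := by
    rw [h2, Finset.card_biUnion]
    · refine Finset.sum_congr rfl fun c _ => ?_
      rw [Finset.card_product, sq]
    · intro c _ c' _ hne
      rw [Function.onFun, Finset.disjoint_left]
      intro x hx hx'
      rw [Finset.mem_product, Finset.mem_filter] at hx hx'
      exact hne (hx.1.2.symm.trans hx'.1.2)
  have h4 : (N ×ˢ N).filter (fun x => (x.1 : ZMod q) = x.2) ⊆
      (N.offDiag.filter fun x => (x.1 : ZMod q) = x.2) ∪ N.diag := by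
    intro x hx
    rw [Finset.mem_filter, Finset.mem_product] at hx
    rw [Finset.mem_union, Finset.mem_filter, Finset.mem_offDiag, Finset.mem_diag]
    by_cases h : x.1 = x.2
    · exact Or.inr ⟨hx.1.1, h⟩
    · exact Or.inl ⟨⟨hx.1.1, hx.1.2, h⟩, hx.2⟩
  have h5 : ∑ c ∈ J, (f c).card ^ 2 ≤
      (N.offDiag.filter fun x => (x.1 : ZMod q) = x.2).card + N.card := by
    rw [← h3]
    refine (Finset.card_le_card h4).trans ((Finset.card_union_le _ _).trans ?_)
    rw [Finset.diag_card]
  have h6 : (∑ c ∈ J, (f c).card) ^ 2 ≤ J.card * ∑ c ∈ J, (f c).card ^ 2 :=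
    sq_sum_le_card_mul_sum_sq
  rw [← h1] at h6
  exact h6.trans (Nat.mul_le_mul hD h5)

end Pool.Agent.Run7.h386.GL
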