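import Pool.Agent.H643R2.ChainDec

/-!
Finite sets of positive integers which are closed under gcd and lcm. Their prime filters are the
sets of the multiples of prime powers.
-/

set_option autoImplicit false

namespace Pool.Agent.Run7.h386.GL

open Finset
open scoped Classical

/-- a finite set of positive integers closed under gcd and lcm -/
structure Lat (A : Finset ℕ) : Prop where
  ne_zero : ∀ a ∈ A, a ≠ 0
  gcd : ∀ a ∈ A, ∀ b ∈ A, Nat.gcd a b ∈ A
  lcm : ∀ a ∈ A, ∀ b ∈ A, Nat.lcm a b ∈ A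

/-- the multiples of a prime power, if they are neither nothing nor everything -/
noncomputable def DD (A : Finset ℕ) : Finset (Finset ℕ) :=
  (((Finset.range (A.sup id + 1)).filter IsPrimePow).image fun q => A.filter fun a => q ∣ a).filter
    fun D => D.Nonempty ∧ D ≠ A

variable {A : Finset ℕ}

lemma mem_DD {D : Finset ℕ} (h : D ∈ DD A) :
    (∃ q, IsPrimePow q ∧ D = A.filter fun a => q ∣ a) ∧ D.Nonempty ∧ D ≠ A := by
  unfold DD at h
  rw [Finset.mem_filter, Finset.mem_image] at h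
  obtain ⟨⟨q, hq, h⟩, h2⟩ := h
  exact ⟨⟨q, (Finset.mem_filter.1 hq).2, h.symm⟩, h2⟩

lemma mem_DD_of (hA : Lat A) {q : ℕ} (hq : IsPrimePow q) (h1 : (A.filter fun a => q ∣ a).Nonempty)
    (h2 : (A.filter fun a => q ∣ a) ≠ A) : (A.filter fun a => q ∣ a) ∈ DD A := by
  unfold DD
  rw [Finset.mem_filter, Finset.mem_image]
  refine ⟨⟨q, ?_, rfl⟩, h1, h2⟩
  rw [Finset.mem_filter, Finset.mem_range]
  refine ⟨?_, hq⟩
  obtain ⟨a, ha⟩ := h1
  rw [Finset.mem_filter] at ha
  have h3 : a ≤ A.sup id := Finset.le_sup (f := id) ha.1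
  have h4 := Nat.le_of_dvd (Nat.pos_of_ne_zero (hA.ne_zero a ha.1)) ha.2
  omega

lemma DD_sub {D : Finset ℕ} (hD : D ∈ DD A) : D ⊆ A := by
  obtain ⟨⟨q, _, h⟩, _⟩ := mem_DD hD
  rw [h]
  exact Finset.filter_subset _ _

lemma pp_lcm {q a b : ℕ} (hq : IsPrimePow q) (ha : a ≠ 0) (hb : b ≠ 0) :
    q ∣ Nat.lcm a b ↔ q ∣ a ∨ q ∣ b := by
  obtain ⟨p, k, hp, hk, rfl⟩ := hq
  have hp' : p.Prime := Nat.prime_iff.2 hp
  rw [hp'.pow_dvd_iff_le_factorization (Nat.lcm_ne_zero ha hb),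
    hp'.pow_dvd_iff_le_factorization ha, hp'.pow_dvd_iff_le_factorization hb,
    Nat.factorization_lcm ha hb, Finsupp.sup_apply, le_sup_iff]

lemma Lat.mem_gcd (hA : Lat A) {D : Finset ℕ} (hD : D ∈ DD A) {a b : ℕ} (ha : a ∈ A)
    (hb : b ∈ A) : Nat.gcd a b ∈ D ↔ a ∈ D ∧ b ∈ D := by
  obtain ⟨⟨q, hq, rfl⟩, _⟩ := mem_DD hD
  simp only [Finset.mem_filter, ha, hb, hA.gcd a ha b hb, true_and, Nat.dvd_gcd_iff]

lemma Lat.mem_lcm (hA : Lat A) {D : Finset ℕ} (hD : D ∈ DD A) {a b : ℕ} (ha : a ∈ A)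
    (hb : b ∈ A) : Nat.lcm a b ∈ D ↔ a ∈ D ∨ b ∈ D := by
  obtain ⟨⟨q, hq, rfl⟩, _⟩ := mem_DD hD
  simp only [Finset.mem_filter, ha, hb, hA.lcm a ha b hb, true_and]
  exact pp_lcm hq (hA.ne_zero a ha) (hA.ne_zero b hb)

lemma mem_of_dvd {D : Finset ℕ} (hD : D ∈ DD A) {a b : ℕ} (ha : a ∈ D) (hb : b ∈ A)
    (h : a ∣ b) : b ∈ D := by
  obtain ⟨⟨q, hq, rfl⟩, _⟩ := mem_DD hD
  rw [Finset.mem_filter] at ha ⊢
  exact ⟨hb, ha.2.trans h⟩

/-- different elements are separated -/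
lemma Lat.sep (hA : Lat A) {a b : ℕ} (ha : a ∈ A) (hb : b ∈ A)
    (h : ∀ D ∈ DD A, a ∈ D ↔ b ∈ D) : a = b := by
  have key : ∀ a b : ℕ, a ∈ A → b ∈ A → (∀ D ∈ DD A, a ∈ D → b ∈ D) → a ∣ b := by
    intro a b ha hb h
    rw [← Nat.factorization_le_iff_dvd (hA.ne_zero a ha) (hA.ne_zero b hb)]
    intro p
    by_contra hlt
    push Not at hlt
    have hp : p.Prime := by
      by_contra hp
      rw [Nat.factorization_eq_zero_of_not_prime a hp] at hlt
      exact Nat.not_lt_zero _ hlt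
    set k := a.factorization p with hk
    have h1 : p ^ k ∣ a := (hp.pow_dvd_iff_le_factorization (hA.ne_zero a ha)).2 le_rfl
    have h2 : ¬ p ^ k ∣ b := fun h3 =>
      absurd ((hp.pow_dvd_iff_le_factorization (hA.ne_zero b hb)).1 h3) (not_le.2 hlt)
    have hk0 : k ≠ 0 := by omega
    have h3 : (A.filter fun x => p ^ k ∣ x) ∈ DD A := by
      refine mem_DD_of hA (hp.isPrimePow.pow hk0) ⟨a, Finset.mem_filter.2 ⟨ha, h1⟩⟩ ?_
      intro h4
      rw [← h4] at hb
      exact h2 (Finset.mem_filter.1 hb).2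
    exact h2 (Finset.mem_filter.1 (h _ h3 (Finset.mem_filter.2 ⟨ha, h1⟩))).2
  exact Nat.dvd_antisymm (key a b ha hb fun D hD h1 => (h D hD).1 h1)
    (key b a hb ha fun D hD h1 => (h D hD).2 h1)

/-- the least element of a set closed under gcd -/
lemma gcd_mem_of_closed {S : Finset ℕ} (hS : S.Nonempty)
    (hc : ∀ a ∈ S, ∀ b ∈ S, Nat.gcd a b ∈ S) : S.gcd id ∈ S := by
  have key : ∀ T : Finset ℕ, T.Nonempty → T ⊆ S → T.gcd id ∈ S := by
    intro T hT
    induction hT using Finset.Nonempty.cons_induction with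
    | singleton a => intro h; simpa using h (Finset.mem_singleton_self a)
    | cons a T haT hT ih =>
      intro h
      rw [Finset.cons_eq_insert, Finset.gcd_insert]
      exact hc a (h (Finset.mem_cons_self a T)) _ (ih fun x hx => h (Finset.mem_cons_of_mem hx))
  exact key S hS subset_rfl

lemma lcm_mem_of_closed {S : Finset ℕ} (hS : S.Nonempty)
    (hc : ∀ a ∈ S, ∀ b ∈ S, Nat.lcm a b ∈ S) : S.lcm id ∈ S := by
  have key : ∀ T : Finset ℕ, T.Nonempty → T ⊆ S → T.lcm id ∈ S := by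
    intro T hT
    induction hT using Finset.Nonempty.cons_induction with
    | singleton a => intro h; simpa using h (Finset.mem_singleton_self a)
    | cons a T haT hT ih =>
      intro h
      rw [Finset.cons_eq_insert, Finset.lcm_insert]
      exact hc a (h (Finset.mem_cons_self a T)) _ (ih fun x hx => h (Finset.mem_cons_of_mem hx))
  exact key S hS subset_rfl

/-- the least element of a prime filter -/
lemma Lat.gcd_mem (hA : Lat A) {D : Finset ℕ} (hD : D ∈ DD A) : D.gcd id ∈ D := by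
  refine gcd_mem_of_closed (mem_DD hD).2.1 fun a ha b hb => ?_
  exact (hA.mem_gcd hD (DD_sub hD ha) (DD_sub hD hb)).2 ⟨ha, hb⟩

lemma Lat.gcd_mem_iff (hA : Lat A) {D D' : Finset ℕ} (hD : D ∈ DD A) (hD' : D' ∈ DD A) :
    D.gcd id ∈ D' ↔ D ⊆ D' := by
  constructor
  · intro h b hb
    exact mem_of_dvd hD' h (DD_sub hD hb) (Finset.gcd_dvd hb)
  · intro h
    exact h (hA.gcd_mem hD)

/-- sets of pairwise incomparable prime filters are small -/
lemma Lat.antichain (hA : Lat A) (hne : A.Nonempty) {S : Finset (Finset ℕ)} (hS : S ⊆ DD A)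
    (hac : Pool.Agent.H643R2.ChainDec.IsAC S) : 2 ^ S.card ≤ A.card := by
  set m₀ := A.gcd id with hm₀
  have hm₀A : m₀ ∈ A := gcd_mem_of_closed hne hA.gcd
  have hm₀D : ∀ D ∈ DD A, m₀ ∉ D := by
    intro D hD h
    apply (mem_DD hD).2.2
    refine subset_antisymm (DD_sub hD) fun a ha => ?_
    exact mem_of_dvd hD h ha (Finset.gcd_dvd ha)
  set F : Finset (Finset ℕ) → ℕ := fun s => Nat.lcm m₀ (s.lcm fun D => D.gcd id) with hF
  have key : ∀ s : Finset (Finset ℕ), s ⊆ S → F s ∈ A ∧ ∀ D' ∈ S, F s ∈ D' ↔ D' ∈ s := by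
    intro s
    induction s using Finset.induction_on with
    | empty =>
      intro _
      have : F ∅ = m₀ := by simp [hF]
      rw [this]
      exact ⟨hm₀A, fun D' hD' => by simp [hm₀D D' (hS hD')]⟩
    | insert D s hDs ih =>
      intro h
      obtain ⟨h1, h2⟩ := ih fun x hx => h (Finset.mem_insert_of_mem hx)
      have hDS : D ∈ S := h (Finset.mem_insert_self _ _)
      have hjA : D.gcd id ∈ A := DD_sub (hS hDS) (hA.gcd_mem (hS hDS))
      have e : F (insert D s) = Nat.lcm (F s) (D.gcd id) := by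
        simp only [hF]
        rw [Finset.lcm_insert]
        change Nat.lcm m₀ (Nat.lcm (D.gcd id) (s.lcm fun D => D.gcd id)) = _
        rw [Nat.lcm_comm (D.gcd id), Nat.lcm_assoc]
      rw [e]
      refine ⟨hA.lcm _ h1 _ hjA, fun D' hD' => ?_⟩
      rw [hA.mem_lcm (hS hD') h1 hjA, h2 D' hD', hA.gcd_mem_iff (hS hDS) (hS hD'),
        Finset.mem_insert]
      constructor
      · rintro (h3 | h3)
        · exact Or.inr h3
        · exact Or.inl (hac D hDS D' hD' h3).symm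
      · rintro (h3 | h3)
        · exact Or.inr (h3 ▸ subset_rfl)
        · exact Or.inl h3
  rw [← Finset.card_powerset]
  refine Finset.card_le_card_of_injOn F (fun s hs => (key s (Finset.mem_powerset.1 hs)).1) ?_
  intro s hs s' hs' h
  have hs := Finset.mem_powerset.1 hs
  have hs' := Finset.mem_powerset.1 hs'
  ext D
  constructor
  · intro hD
    rw [← (key s' hs').2 D (hs hD), ← h]
    exact ((key s hs).2 D (hs hD)).2 hD
  · intro hD
    rw [← (key s hs).2 D (hs' hD), h]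
    exact ((key s' hs').2 D (hs' hD)).2 hD

end Pool.Agent.Run7.h386.GL
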