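import Pool.Agent.TH83.SQ.DilMain

/-!
Sums with dilates by products of pairwise coprime integers: a splitting inequality (after the
library `TH83.SQ` of the starting files, where the integers are primes).
-/

set_option autoImplicit false

namespace Pool.Agent.Run7.h386.GL

open Finset Pool.Agent.TH83.SQ
open scoped Pointwise Classical

theorem pr_coprime {q : ℕ} {P : Finset ℕ} (hP : ∀ x ∈ P, Nat.Coprime x q) {s : Finset ℕ}
    (hs : s ⊆ P) : IsCoprime (q : ℤ) (pr s) := by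
  unfold pr
  refine IsCoprime.prod_right fun x hx => ?_
  rw [Nat.isCoprime_iff_coprime]
  exact (hP x (hs hx)).symm

theorem caseIIa' {q : ℕ} (P : Finset ℕ) (hP : ∀ x ∈ P, Nat.Coprime x q)
    (X B : Finset ℤ) (I : ℕ) (T : Finset ℤ) (hT : T ⊆ X) (hTn : T.Nonempty)
    (hTi : ∀ t ∈ T, ∀ t' ∈ T, ((q : ℤ) ^ I) ∣ t - t' → t = t') (b₀ : ℤ) (hb₀ : b₀ ∈ B) :
    Real.log T.card + (∑ t ∈ T, tau P (cls ((q : ℤ) ^ I) X t) (cls ((q : ℤ) ^ I) B b₀)) / T.card ≤
      tau P X B := by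
  refine Pool.Agent.TH959.SQ.tau_avg P T (fun t => cls ((q : ℤ) ^ I) X t)
    (fun _ => cls ((q : ℤ) ^ I) B b₀) X B ?_
  intro s hs
  have hcop : IsCoprime ((q : ℤ) ^ I) (pr s) := IsCoprime.pow_left (pr_coprime hP hs)
  refine Pool.Agent.TH959.SQ.log_split T hTn _ _ ?_ ?_ ?_
  · intro t _
    exact Finset.add_subset_add (Pool.Agent.TH959.SQ.dil_mono
      (Pool.Agent.TH959.SQ.cls_subset _ _ _)) (Pool.Agent.TH959.SQ.cls_subset _ _ _)
  · intro t ht
    exact (Pool.Agent.TH959.SQ.dil_nonempty ⟨t, Pool.Agent.TH959.SQ.self_mem_cls (hT ht)⟩).add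
      ⟨b₀, Pool.Agent.TH959.SQ.self_mem_cls hb₀⟩
  · intro t ht t' ht' htt
    rw [Finset.disjoint_left]
    intro z hz hz'
    apply htt
    have key : ∀ t, z ∈ dil (pr s) (cls ((q : ℤ) ^ I) X t) + cls ((q : ℤ) ^ I) B b₀ →
        ((q : ℤ) ^ I) ∣ z - (pr s * t + b₀) := by
      intro t hz
      obtain ⟨a, ha, b, hb, rfl⟩ := Finset.mem_add.1 hz
      obtain ⟨x, hx, rfl⟩ := Pool.Agent.TH959.SQ.mem_dil.1 ha
      have h1 := (Pool.Agent.TH959.SQ.mem_cls.1 hx).2
      have h2 := (Pool.Agent.TH959.SQ.mem_cls.1 hb).2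
      have h3 : ((q : ℤ) ^ I) ∣ pr s * (x - t) := h1.mul_left _
      have h4 : pr s * x + b - (pr s * t + b₀) = pr s * (x - t) + (b - b₀) := by ring
      rw [h4]
      exact dvd_add h3 h2
    have h5 := key t hz
    have h6 := key t' hz'
    have h7 := dvd_sub h6 h5
    refine hTi t ht t' ht' ?_
    have h8 : z - (pr s * t' + b₀) - (z - (pr s * t + b₀)) = pr s * (t - t') := by ring
    rw [h8] at h7
    exact hcop.dvd_of_dvd_mul_left h7

end Pool.Agent.Run7.h386.GL
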